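import Pool.Agent.E8helper11.GS.Stm

set_option autoImplicit false

open Filter Topology
open Pool.Agent.E8helper11.GS
open scoped Classical

namespace Pool.Agent.E8helper65.GS

theorem mult_card (a W d : ℕ) (hd : 0 < d) :
    |(((Finset.Ioc a (a + W)).filter (fun n => d ∣ n)).card : ℝ) - (W : ℝ) / d| ≤ 1 := by
  have h1 : ((Finset.Ioc 0 (a + W)).filter (fun n => d ∣ n)).card =
      ((Finset.Ioc 0 a).filter (fun n => d ∣ n)).card +
        ((Finset.Ioc a (a + W)).filter (fun n => d ∣ n)).card := by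
    rw [← Finset.Ioc_union_Ioc_eq_Ioc (Nat.zero_le a) (Nat.le_add_right a W),
      Finset.filter_union, Finset.card_union_of_disjoint]
    apply Finset.disjoint_filter_filter
    rw [Finset.disjoint_left]
    intro x hx hx'
    rw [Finset.mem_Ioc] at hx hx'
    omega
  rw [Nat.Ioc_filter_dvd_card_eq_div, Nat.Ioc_filter_dvd_card_eq_div] at h1
  have h2 : ((((a + W) / d : ℕ) : ℝ)) = ((a / d : ℕ) : ℝ) +
      (((Finset.Ioc a (a + W)).filter (fun n => d ∣ n)).card : ℝ) := by
    exact_mod_cast h1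
  have hd' : (0 : ℝ) < d := by exact_mod_cast hd
  have e1 : (((a + W) / d : ℕ) : ℝ) ≤ ((a : ℝ) + W) / d := by
    have := @Nat.cast_div_le ℝ _ _ _ (a + W) d
    push_cast at this
    exact this
  have e2 : ((a : ℝ) + W) / d < (((a + W) / d : ℕ) : ℝ) + 1 := by
    rw [div_lt_iff₀ hd']
    have := Nat.lt_div_mul_add (a := a + W) hd
    have h3 : a + W < ((a + W) / d + 1) * d := by
      rw [add_mul, one_mul]
      exact this
    exact_mod_cast h3
  have e3 : ((a / d : ℕ) : ℝ) ≤ (a : ℝ) / d := Nat.cast_div_le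
  have e4 : (a : ℝ) / d < ((a / d : ℕ) : ℝ) + 1 := by
    rw [div_lt_iff₀ hd']
    have := Nat.lt_div_mul_add (a := a) hd
    have h3 : a < (a / d + 1) * d := by
      rw [add_mul, one_mul]
      exact this
    exact_mod_cast h3
  rw [add_div] at e1 e2
  rw [abs_le]
  constructor <;> linarith

theorem key (u : ℕ → ℕ) (h2 : ∀ i, 2 ≤ u i) (hc : ∀ i j, i ≠ j → Nat.Coprime (u i) (u j))
    (a W : ℕ) : ∀ s d : ℕ, 0 < d → (∀ i < s, Nat.Coprime d (u i)) →
    |(((Finset.Ioc a (a + W)).filter (fun n => d ∣ n ∧ ∀ i < s, ¬ u i ∣ n)).card : ℝ) -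
      (W : ℝ) / d * ∏ i ∈ Finset.range s, (1 - 1 / (u i : ℝ))| ≤ 2 ^ s := by
  intro s
  induction s with
  | zero =>
    intro d hd _
    have h := mult_card a W d hd
    simpa using h
  | succ s ih =>
    intro d hd hcop
    have i1 := ih d hd (fun i hi => hcop i (Nat.lt_succ_of_lt hi))
    have hus : 0 < u s := lt_of_lt_of_le two_pos (h2 s)
    have i2 := ih (d * u s) (Nat.mul_pos hd hus) (fun i hi =>
      Nat.Coprime.mul_left (hcop i (Nat.lt_succ_of_lt hi)) (hc s i (by omega)))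
    have h3 : ((Finset.Ioc a (a + W)).filter (fun n => d ∣ n ∧ ∀ i < s, ¬ u i ∣ n)).card =
        ((Finset.Ioc a (a + W)).filter (fun n => d ∣ n ∧ ∀ i < s + 1, ¬ u i ∣ n)).card +
          ((Finset.Ioc a (a + W)).filter (fun n => d * u s ∣ n ∧ ∀ i < s, ¬ u i ∣ n)).card := by
      rw [← Finset.card_union_of_disjoint]
      · congr 1
        ext n
        simp only [Finset.mem_union, Finset.mem_filter]
        constructor
        · rintro ⟨hn, hdn, hi⟩
          by_cases h : u s ∣ n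
          · right
            exact ⟨hn, Nat.Coprime.mul_dvd_of_dvd_of_dvd (hcop s (Nat.lt_succ_self s)) hdn h, hi⟩
          · left
            refine ⟨hn, hdn, fun i his => ?_⟩
            rcases Nat.lt_succ_iff_lt_or_eq.1 his with h' | h'
            · exact hi i h'
            · rw [h']
              exact h
        · rintro (⟨hn, hdn, hi⟩ | ⟨hn, hdn, hi⟩)
          · exact ⟨hn, hdn, fun i his => hi i (Nat.lt_succ_of_lt his)⟩
          · exact ⟨hn, (Dvd.intro _ rfl).trans hdn, hi⟩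
      · rw [Finset.disjoint_left]
        intro n hn hn'
        rw [Finset.mem_filter] at hn hn'
        exact hn.2.2 s (Nat.lt_succ_self s) ((Dvd.intro_left _ rfl).trans hn'.2.1)
    have h4 : (((Finset.Ioc a (a + W)).filter (fun n => d ∣ n ∧ ∀ i < s, ¬ u i ∣ n)).card : ℝ) =
        (((Finset.Ioc a (a + W)).filter (fun n => d ∣ n ∧ ∀ i < s + 1, ¬ u i ∣ n)).card : ℝ) +
          (((Finset.Ioc a (a + W)).filter
            (fun n => d * u s ∣ n ∧ ∀ i < s, ¬ u i ∣ n)).card : ℝ) := by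
      exact_mod_cast h3
    rw [Finset.prod_range_succ]
    have hd' : (d : ℝ) ≠ 0 := by exact_mod_cast hd.ne'
    have hu' : (u s : ℝ) ≠ 0 := by exact_mod_cast hus.ne'
    have h5 : (W : ℝ) / ((d * u s : ℕ) : ℝ) * ∏ i ∈ Finset.range s, (1 - 1 / (u i : ℝ)) =
        (W : ℝ) / d * (∏ i ∈ Finset.range s, (1 - 1 / (u i : ℝ))) * (1 / (u s : ℝ)) := by
      push_cast
      field_simp
    rw [h5] at i2
    rw [abs_le] at i1 i2 ⊢
    have h6 : (2 : ℝ) ^ (s + 1) = 2 ^ s + 2 ^ s := by ring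
    have h7 : (W : ℝ) / d * ((∏ i ∈ Finset.range s, (1 - 1 / (u i : ℝ))) * (1 - 1 / (u s : ℝ))) =
        (W : ℝ) / d * (∏ i ∈ Finset.range s, (1 - 1 / (u i : ℝ))) -
        (W : ℝ) / d * (∏ i ∈ Finset.range s, (1 - 1 / (u i : ℝ))) * (1 / (u s : ℝ)) := by ring
    rw [h6, h7]
    constructor
    · linarith [i1.1, i2.2]
    · linarith [i1.2, i2.1]

theorem t_SIEVE : S_SIEVE := by
  intro u h2 hc s a W
  have h := key u h2 hc a W s 1 one_pos (fun i _ => Nat.coprime_one_left (u i))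
  rw [abs_le] at h
  have h1 := h.1
  rw [Nat.cast_one, div_one] at h1
  have h3 : (Finset.Ioc a (a + W)).filter (fun n => 1 ∣ n ∧ ∀ i < s, ¬ u i ∣ n) =
      (Finset.Ioc a (a + W)).filter (fun n => ∀ i < s, ¬ u i ∣ n) := by
    apply Finset.filter_congr
    intro n _
    simp
  rw [h3] at h1
  have h4 : (W : ℝ) * ∏ i ∈ Finset.range s, (1 - 1 / (u i : ℝ)) - 2 ^ s ≤
    (((Finset.Ioc a (a + W)).filter (fun n => ∀ i < s, ¬ u i ∣ n)).card : ℝ) := by linarith
  convert h4

end Pool.Agent.E8helper65.GS
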